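import Pool.Agent.Lead.Pac2

set_option autoImplicit false

namespace Pool.Agent.Results.MP_ab635e_lc.Q1
open MeasureTheory Set Finset Filter Pool.Agent.Lead.Pac

variable {X : Type*} [MeasurableSpace X]

/-- `ρ(P,Q) = sup_A |P(A) - Q(A)|` -/
noncomputable def rho (P Q : Measure X) : ℝ :=
  ⨆ A : {A : Set X // MeasurableSet A}, |P.real A - Q.real A|

def TotB (Ps : Set (Measure X)) : Prop :=
  ∀ ε > 0, ∃ T : Finset (Measure X), (∀ Q ∈ T, IsProbabilityMeasure Q) ∧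
    ∀ P ∈ Ps, ∃ Q ∈ T, rho P Q < ε

def clos (Ps : Set (Measure X)) : Set (Measure X) :=
  {Q | IsProbabilityMeasure Q ∧ ∀ ε > 0, ∃ P ∈ Ps, rho Q P < ε}

def hull (Ps : Set (Measure X)) : Set (Measure X) :=
  {Q | ∃ (l : ℕ) (w : Fin l → ℝ) (P : Fin l → Measure X), (∀ i, P i ∈ Ps) ∧ (∀ i, 0 ≤ w i) ∧
    ∑ i, w i = 1 ∧ Q = ∑ i, ENNReal.ofReal (w i) • P i}

def PAC (Ps : Set (Measure X)) (F : Set (X → ℝ)) : Prop :=
  ∃ A : ∀ m : ℕ, (Fin m → X × ℝ) → F, ∀ ε > 0, ∀ η > 0, ∀ᶠ m in atTop, ∀ P ∈ Ps, ∀ f ∈ F,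
    (Measure.pi fun _ : Fin m => P) {x | ε < dP P f (A m fun i => (x i, f (x i)))} ≤ ENNReal.ofReal η

theorem cl_of {P Q : Measure X} [IsProbabilityMeasure P] [IsProbabilityMeasure Q] {ε : ℝ}
    (h : rho P Q < ε) : Cl ε P Q := fun A hA =>
  (le_ciSup (f := fun A : {A : Set X // MeasurableSet A} => |P.real A - Q.real A|) ⟨2, by
    rintro _ ⟨A, rfl⟩
    have := measureReal_le_one (μ := P) (s := A)
    have := measureReal_le_one (μ := Q) (s := A)
    have := measureReal_nonneg (μ := P) (s := A)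
    have := measureReal_nonneg (μ := Q) (s := A)
    exact abs_le.2 ⟨by linarith, by linarith⟩⟩ ⟨A, hA⟩).trans h.le

theorem hull_prob {Ps : Set (Measure X)} (h : ∀ P ∈ Ps, IsProbabilityMeasure P) :
    ∀ Q ∈ hull Ps, IsProbabilityMeasure Q := by
  rintro _ ⟨l, w, P, h1, h2, h3, rfl⟩
  have := fun i => h _ (h1 i)
  exact ⟨by simp [← ENNReal.ofReal_sum_of_nonneg fun i _ => h2 i, h3]⟩

theorem net {Ps : Set (Measure X)} (h : ∀ P ∈ Ps, IsProbabilityMeasure P) (hT : TotB Ps) {δ : ℝ}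
    (d0 : 0 < δ) : ∃ (N : ℕ) (P : Fin N → Measure X) (t : Set (Fin N → ℝ)), (∀ k, P k ∈ Ps) ∧
      t ⊆ stdSimplex ℝ (Fin N) ∧ t.Finite ∧ ∀ Q ∈ clos (hull Ps), ∃ w ∈ t, Cl δ Q (mix P w) := by
  classical
  obtain ⟨T, T1, T2⟩ := hT (δ / 8) (by positivity)
  let s := T.filter fun Q => ∃ P ∈ Ps, rho P Q < δ / 8
  choose P P1 P2 using fun k => (mem_filter.1 (s.equivFin.symm k).2).2
  have := fun k => h _ (P1 k)
  have P3 : ∀ P' ∈ Ps, ∃ k, Cl (δ / 8 + δ / 8) P' (P k) := fun P' hP => by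
    obtain ⟨Q, q1, q2⟩ := T2 P' hP
    have := h _ hP
    have := T1 _ q1
    have a := P2 (s.equivFin ⟨Q, mem_filter.2 ⟨q1, P', hP, q2⟩⟩)
    rw [Equiv.symm_apply_apply] at a
    exact ⟨_, (cl_of q2).trans (cl_of a).symm⟩
  obtain ⟨t, t1, t2, t3⟩ := finite_cover_balls_of_compact (isCompact_stdSimplex ℝ (Fin s.card))
    (e := δ / (4 * (s.card + 1))) (by positivity)
  refine ⟨_, P, t, P1, t1, t2, fun Q ⟨_, hQ⟩ => ?_⟩
  obtain ⟨Q', hQ', q⟩ := hQ (δ / 4) (by positivity)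
  have := hull_prob h _ hQ'
  obtain ⟨l, v, P', h1, h2, h3, rfl⟩ := hQ'
  have := fun i => h _ (h1 i)
  choose c hc using fun i => P3 _ (h1 i)
  have w0 : (fun k => ∑ i with c i = k, v i) ∈ stdSimplex ℝ (Fin s.card) :=
    ⟨fun k => sum_nonneg fun i _ => h2 i, by rw [sum_fiberwise, h3]⟩
  obtain ⟨w, w1, w2⟩ := mem_iUnion₂.1 (t3 w0)
  refine ⟨w, w1, fun A hA => ?_⟩
  have a1 := cl_of q A hA
  have a2 : |(mix P' v).real A - ∑ k, (∑ i with c i = k, v i) * (P k).real A| ≤ δ / 8 + δ / 8 := by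
    have : ∑ k, (∑ i with c i = k, v i) * (P k).real A = ∑ i, v i * (P (c i)).real A := by
      rw [← sum_fiberwise _ c]
      exact sum_congr rfl fun k _ => by
        rw [sum_mul]; exact sum_congr rfl fun i hi => by rw [(mem_filter.1 hi).2]
    rw [this, mix_real P' h2 hA, ← sum_sub_distrib, ← one_mul (_ + _), ← h3, sum_mul]
    refine (abs_sum_le_sum_abs _ _).trans (sum_le_sum fun i _ => ?_)
    rw [← mul_sub, abs_mul, abs_of_nonneg (h2 i)]
    exact mul_le_mul_of_nonneg_left (hc i A hA) (h2 i)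
  have a3 : |∑ k, (∑ i with c i = k, v i) * (P k).real A - (mix P w).real A| ≤ δ / 4 := by
    rw [mix_real P (t1 w1).1 hA, ← sum_sub_distrib]
    refine (abs_sum_le_sum_abs _ _).trans ((sum_le_card_nsmul _ _ (δ / (4 * (s.card + 1)))
      fun k _ => ?_).trans ?_)
    · rw [← sub_mul, abs_mul, abs_of_nonneg measureReal_nonneg]
      exact (mul_le_of_le_one_right (abs_nonneg _) measureReal_le_one).trans
        ((dist_le_pi_dist _ w k).trans (le_of_lt w2))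
    · rw [card_univ, Fintype.card_fin, nsmul_eq_mul, ← mul_div_assoc,
        div_le_div_iff₀ (by positivity) (by positivity)]
      nlinarith
  have := abs_sub_le (Q.real A) ((mix P' v).real A) ((mix P w).real A)
  have := abs_sub_le ((mix P' v).real A) (∑ k, (∑ i with c i = k, v i) * (P k).real A)
    ((mix P w).real A)
  unfold mix at *
  linarith

theorem result (Ps : Set (Measure X)) (h : ∀ P ∈ Ps, IsProbabilityMeasure P) (hT : TotB Ps)
    (F : Set (X → ℝ)) (hF : ∀ f ∈ F, Measurable f ∧ ∀ x, 0 ≤ f x ∧ f x ≤ 1) (hP : PAC Ps F) :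
    PAC (clos Ps) F ∧ PAC (hull Ps) F ∧ PAC (clos (hull Ps)) F := by
  classical
  have mono : ∀ Ps Qs : Set (Measure X), Ps ⊆ Qs → PAC Qs F → PAC Ps F := fun _ _ h ⟨A, hA⟩ =>
    ⟨A, fun ε e η h' => (hA ε e η h').mono fun _ k P hP => k P (h hP)⟩
  suffices PAC (clos (hull Ps)) F from ⟨mono _ (clos (hull Ps)) (fun Q q => ⟨q.1, fun ε e =>
    (q.2 ε e).imp fun P hP => ⟨⟨1, fun _ => 1, fun _ => P, fun _ => hP.1, by simp⟩, hP.2⟩⟩) this,
    mono _ (clos (hull Ps)) (fun Q hQ => ⟨hull_prob h Q hQ, fun ε e => ⟨Q, hQ, by simpa [rho] using e⟩⟩) this, this⟩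
  obtain ⟨A, hA⟩ := hP
  let G : ∀ M : ℕ, ℕ → ((Fin M → X × ℝ) → F) → Prop := fun M j B => ∀ Q ∈ clos (hull Ps), ∀ f ∈ F,
    (Measure.pi fun _ : Fin M => Q) {x | 1 / (j + 1) < dP Q f (B fun i => (x i, f (x i)))} ≤
      ENNReal.ofReal (1 / (j + 1))
  have key : ∀ j, ∀ᶠ M in atTop, ∃ B, G M j B := fun j => by
    obtain ⟨ε, e0, e1⟩ : ∃ ε : ℝ, 0 < ε ∧ 1 / (j + 1) = ε := ⟨_, by positivity, rfl⟩
    obtain ⟨m, hm⟩ := eventually_atTop.1 (hA (ε / 4) (by positivity) (1 / 8) (by positivity))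
    have d0 : 0 < ε / 2 / (640 * (m + 1) + 5) := by positivity
    obtain ⟨N, P, t, p1, p2, p3, p4⟩ := net h hT d0
    have := fun k => h _ (p1 k)
    have := p3.fintype
    refine (core P (fun a : t => a.1) (fun a => (p2 a.2).1) (fun a => (p2 a.2).2) hF (A (m + 1))
      (by positivity) d0 e0 fun k => hm _ m.le_succ _ (p1 k)).mono fun M ⟨B, hB⟩ =>
        ⟨B, fun Q hQ f hf => ?_⟩
    have := hQ.1
    have := hB Q (by simpa using p4 Q hQ) f hf
    rw [mul_div_cancel₀ _ (by positivity), show 2 * (ε / 4) + ε / 2 = ε by ring] at this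
    rw [e1]
    exact this
  have : ∀ M, ∃ B, ∀ j ≤ M, (∃ B, G M j B) → G M (Nat.findGreatest (fun j => ∃ B, G M j B) M) B :=
    fun M => by
      by_cases e : ∃ j ≤ M, ∃ B, G M j B
      · obtain ⟨j, h1, h2⟩ := e
        exact (Nat.findGreatest_spec (P := fun j => ∃ B, G M j B) h1 h2).imp fun B hB _ _ _ => hB
      · exact ⟨A M, fun j h1 h2 => (e ⟨j, h1, h2⟩).elim⟩
  choose B hB using this
  refine ⟨B, fun ε e η h' => ?_⟩
  obtain ⟨j, hj⟩ := exists_nat_one_div_lt (lt_min e h')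
  filter_upwards [key j, eventually_ge_atTop j] with M m1 m2 Q hQ f hf
  have := (one_div_le_one_div_of_le (by positivity) (add_le_add_left (Nat.cast_le.2
    (Nat.le_findGreatest (P := fun j => ∃ B, G M j B) m2 m1)) (1 : ℝ))).trans hj.le
  exact (measure_mono fun x hx => (this.trans (min_le_left _ _)).trans_lt hx).trans
    ((hB M j m2 m1 Q hQ f hf).trans (ENNReal.ofReal_le_ofReal (this.trans (min_le_right _ _))))

end Pool.Agent.Results.MP_ab635e_lc.Q1
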